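import Mathlib
import Pool.Agent.Lib_helper27.Final

/-!
Problem MP_f6626d_co: smoothness of the law of the area `A_n` of a uniformly random self-avoiding
polygon of perimeter `2n` on the square lattice.
-/

namespace Pool.Agent.Lib_helper27.Retired.AreaShiftSmooth

open Pool.Agent.AreaLaw

/-- The total variation distance between the laws of `A_n + 1` and of `A_n` is at most
`C / √n`. -/
theorem result :
    ∃ C : ℝ, ∀ n : ℕ, 1 ≤ n → ∀ B : Set ℝ,
      |prob n {x | x + 1 ∈ B} - prob n B| ≤ C / Real.sqrt n :=
  tv_shift

end Pool.Agent.Lib_helper27.Retired.AreaShiftSmooth
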