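import Mathlib
import Pool.Agent.Lib_helper27.Final

/-!
Problem MP_f6626d_co: all moments of the area of a uniformly random self-avoiding polygon of
perimeter `2n` on the square lattice satisfy a ratio limit theorem with a rate.
-/

namespace Pool.Agent.Results.MP_f6626d_co.MomentRatioRate

open Pool.Agent.AreaLaw

/-- For every `k` the ratio of the `k`-th moments of the area at consecutive perimeters is
`1 + O(n^{-1/4})`. -/
theorem result (k : ℕ) :
    ∃ C : ℝ, ∀ n : ℕ, 1 ≤ n →
      |moment k (n + 1) / moment k n - 1| ≤ C * (n : ℝ) ^ (-(1 / 4) : ℝ) :=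
  moment_rate_all k

end Pool.Agent.Results.MP_f6626d_co.MomentRatioRate
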